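import Pool.Agent.H289R3.Tri.Final

set_option autoImplicit false
open Set Topology
open scoped Manifold ContDiff
open Pool.Agent.H289R3.Tri

namespace Pool.Agent.Results.MP_7ba843_gt.NotACore

/-- A negative answer to Q1. In the closed orientable smooth four-manifold `X = S² × S¹ × S¹` there
is a surface `F`, the boundary of a smoothly embedded handlebody of genus two, such that
`π₁(F) → π₁(X)` is surjective and `2 + g(F) = 4 ≥ χ(X)`, but no trisection of `X`, even in the
topological category, has core `F`. -/
theorem result :
    ∃ F : Set X4, ProductSatisfiesHypotheses (𝓡 2) (𝓡 1) 2 F ∧ ¬ IsCoreOfTrisection X4 2 F :=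
  ⟨Sig, ⟨X4_closed, bounds, pi1_surj, 0, euler_X4, by norm_num⟩, X4_no_trisection Sig⟩

end Pool.Agent.Results.MP_7ba843_gt.NotACore
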